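import Pool.Agent.TH359.TZH_LP1
import Pool.Agent.TH359.TZH_LP2
import Pool.Agent.TH359.TZH_LP3
import Pool.Agent.TH359.TZH_LP6
import Pool.Agent.TH359.TZH_FF
import Pool.Agent.TH359.TZH_CHK
import Pool.Agent.TH359.TZH_RAT
import Pool.Agent.TH359.TZH_TML
import Pool.Agent.TH359.TZH_PBL
import Pool.Agent.TH370.TZH_LP4
import Pool.Agent.TH370.TZH_LP5
import Pool.Agent.TH395.TZH_D0
import Pool.Agent.TH395.TZH_D1
import Pool.Agent.TH395.TZH_S3
import Pool.Agent.TH558.TZH_CZ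
import Pool.Agent.TH558.TZH_IP
import Pool.Agent.TH558.TZH_S1C
import Pool.Agent.TH959.TZH_S1A
import Pool.Agent.TH959.TZH_S1B
import Pool.Agent.TH55.TZH_S2
import Pool.Agent.TH55.TZH_T1
import Pool.Agent.TH692.TZH_T2
import Pool.Agent.TH692.TZH_T3
import Pool.Agent.TH989.TZH_LPASM
import Pool.Agent.TH772.TZH_TOP
import Pool.Agent.TH611.TZH_POL
import Pool.Agent.TH740.TZH_FIN

set_option autoImplicit false

namespace Pool.Agent.TH32

theorem asm_LP : LPStmt :=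
  TH989.TZH.lpAsm TH359.TZH.lp1 TH359.TZH.lp2 TH359.TZH.lp3 TH370.TZH4.lp4 TH370.TZH5.lp5
    TH359.TZH.lp6

theorem asm_S2 : S2Stmt :=
  TH55.TZ.s2Asm TH959.TZHA.s1a TH959.TZHB.s1b TH558.TZH.s1c asm_LP TH395.TZ.d0 TH395.TZ.d1
    TH395.TZ.dc TH558.TZH.czStmt

theorem asm_S3 : S3Stmt :=
  TH395.TZS.s3 TH395.TZS.s3c0 TH395.TZS.s3d0 TH395.TZS.s3e0 TH395.TZS.s3d1 TH395.TZS.s3e1
    TH395.TZS.s3c

theorem asm_run2 : Run2Stmt := TH692.run2_sound TH55.TL.leafT_sound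

theorem asm_sound : SoundStmt := (TH692.run1_sound asm_run2).2

theorem asm_top : TopStmt :=
  TH772.TZH.topAsm TH558.TZH.idxPow TH359.TZH.rat (TH359.TZH.pbLim TH359.TZH.tmLim)

theorem asm_pol : PolStmt := TH611.TZHPOL.pol

theorem asm_fin : FinalStmt := TH740.TZH.fin asm_S2 asm_S3 asm_top asm_pol

theorem asm_chk {K F2 n u : ℕ} {Λ : ℤ} {cert : List ℕ} {F : Fac} {l : List ℤ}
    (h : chk K F2 n u Λ cert F = some l) : Good K u Λ F l :=
  TH359.TZH.chkS asm_sound K F2 n u Λ cert F l h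

end Pool.Agent.TH32
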