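import Pool.Agent.TH32.H.Lim

set_option autoImplicit false

/-! A faster checker: the cone phase works on one packed natural number. -/

namespace Pool.Agent.TH32

open Polynomial Pool.Agent.H260TZ

/-- cone trees: `n i j l r` compares variables `i /= j` or splits off `i = j` -/
inductive CT
  | e : CT
  | n (i j : ℕ) (l r : CT) : CT

/-- path trees -/
inductive PT
  | z : PT
  | l (t : CT) : PT
  | b (x y : PT) : PT
  | t (m : List ℕ) (x : PT) : PT
  | f (m : List ℕ) (x : PT) : PT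

/-- pack integers into fields of width 40 with offset `2^39 = 549755813888` -/
def pkQ : List ℤ → ℕ
  | [] => 0
  | a :: l => (a + 549755813888).toNat + 1099511627776 * pkQ l

/-- `Z` for `n` fields -/
def zQ : ℕ → ℕ
  | 0 => 0
  | n + 1 => 549755813888 + 1099511627776 * zQ n

def oQ : ℕ → ℕ
  | 0 => 0
  | n + 1 => 1 + 1099511627776 * oQ n

/-- the packed state: columns `i, i+1, …` -/
def stQ (fs : List Fm) (S : ℕ) : ℕ → ℕ → ℕ
  | _, 0 => 0
  | i, n + 1 => pkQ (fs.map (fun f => f.getD i 0)) + Nat.shiftLeft (stQ fs S (i + 1) n) S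

def repQ (Z S : ℕ) : ℕ → ℕ
  | 0 => 0
  | n + 1 => Z + Nat.shiftLeft (repQ Z S n) S

/-- conjunction of eight columns -/
def foldQ (S x : ℕ) : ℕ :=
  (fun y => (fun z => Nat.land z (Nat.shiftRight z (4 * S))) (Nat.land y (Nat.shiftRight y (2 * S))))
    (Nat.land x (Nat.shiftRight x S))

def colQ (S P i : ℕ) : ℕ := Nat.mod (Nat.shiftRight P (S * i)) (Nat.shiftLeft 1 S)

/-- add column `j` to column `i` -/
def bumpQ (S Z P i j : ℕ) : ℕ :=
  P + Nat.shiftLeft (colQ S P j) (S * i) - Nat.shiftLeft Z (S * i)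

/-- set column `i` to zero -/
def zeroQ (S Z P i : ℕ) : ℕ :=
  P + Nat.shiftLeft Z (S * i) - Nat.shiftLeft (colQ S P i) (S * i)

/-- packed `w, e, f` entries of column `i` -/
def ent (S sh P i : ℕ) : ℕ := Nat.mod (Nat.shiftRight P (S * i + sh)) 1329227995784915872903807060280344576

def entW (x : ℕ) : ℕ := Nat.mod x 1099511627776
def entE (x : ℕ) : ℕ := Nat.mod (Nat.div x 1099511627776) 1099511627776
def entF (x : ℕ) : ℕ := Nat.div x 1208925819614629174706176

/-- admissibility of an entry -/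
def okE (lin : Bool) (x : ℕ) : Bool :=
  (bif lin then Nat.ble 549755813888 (entW x) else Nat.beq (entW x) 549755813888) &&
  (bif Nat.beq (entF x) 549755813888 then Nat.ble (entE x + 1) 549755813888
   else Nat.ble 549755813889 (entF x) && Nat.ble (entE x + 2199023255553) (5 * entF x))

/-- all alive variables are admissible; `A` is the mask, `i = k, …` -/
def okA (lin : Bool) (S sh P A : ℕ) : ℕ → ℕ → Bool
  | _, 0 => true
  | i, n + 1 => bif Nat.testBit A i then okE lin (ent S sh P i) && okA lin S sh P A (i + 1) n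
    else okA lin S sh P A (i + 1) n

def unW (S sh P : ℕ) : ℕ → ℕ → Fm
  | _, 0 => []
  | i, n + 1 => ((entW (ent S sh P i) : ℕ) - 549755813888 : ℤ) :: unW S sh P (i + 1) n
def unE (S sh P : ℕ) : ℕ → ℕ → Fm
  | _, 0 => []
  | i, n + 1 => ((entE (ent S sh P i) : ℕ) - 549755813888 : ℤ) :: unE S sh P (i + 1) n
def unF (S sh P : ℕ) : ℕ → ℕ → Fm
  | _, 0 => []
  | i, n + 1 => ((entF (ent S sh P i) : ℕ) - 549755813888 : ℤ) :: unF S sh P (i + 1) n

/-- the dead variables -/
def mQ (A : ℕ) : ℕ → ℕ → List ℕ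
  | _, 0 => []
  | i, n + 1 => bif Nat.testBit A i then mQ A (i + 1) n else i :: mQ A (i + 1) n

def leafS (K u : ℕ) (Λ : ℤ) (S sh P A : ℕ) : Option (List ℤ) :=
  match leafT K (mQ A 1 K) (unW S sh P 0 (K + 1)) (unE S sh P 0 (K + 1)) (unF S sh P 0 (K + 1)) with
  | none => none
  | some L => polL Λ (top u L)

/-- number of alive variables among `i, …` -/
def cntA (A : ℕ) : ℕ → ℕ → ℕ
  | _, 0 => 0
  | i, n + 1 => bif Nat.testBit A i then cntA A (i + 1) n + 1 else cntA A (i + 1) n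

/-- number of alive variables with `e = 0` -/
def cntZ (S sh P A : ℕ) : ℕ → ℕ → ℕ
  | _, 0 => 0
  | i, n + 1 => bif Nat.testBit A i && Nat.beq (entE (ent S sh P i)) 549755813888 then
      cntZ S sh P A (i + 1) n + 1 else cntZ S sh P A (i + 1) n

/-- `|e|` of an entry -/
def absE (x : ℕ) : ℕ := (entE x - 549755813888) + (549755813888 - entE x)

/-- product of the `|e|` (or of `f` where `e = 0`) over the alive variables -/
def prA (S sh P A : ℕ) : ℕ → ℕ → ℕ
  | _, 0 => 1
  | i, n + 1 => bif Nat.testBit A i then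
      (bif Nat.beq (entE (ent S sh P i)) 549755813888 then entF (ent S sh P i) - 549755813888
        else absE (ent S sh P i)) * prA S sh P A (i + 1) n
    else prA S sh P A (i + 1) n

/-- parity of the number of alive variables with `e > 0` -/
def sgA (S sh P A : ℕ) : ℕ → ℕ → Bool
  | _, 0 => false
  | i, n + 1 => bif Nat.testBit A i && Nat.ble 549755813889 (entE (ent S sh P i)) then
      !(sgA S sh P A (i + 1) n) else sgA S sh P A (i + 1) n

/-- the linear terms: `M` product, `p`, `m` sums of the positive and negative contributions -/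
def linA (Λ S sh P A M : ℕ) (sg : Bool) : ℕ → ℕ → ℕ → ℕ → Option (List ℤ)
  | _, 0, p, m => some [(p : ℤ) - m]
  | i, n + 1, p, m =>
    bif Nat.testBit A i && !(Nat.beq (entW (ent S sh P i)) 549755813888) then
      bif Nat.beq (entE (ent S sh P i)) 549755813888 then none else
      bif Nat.beq (Nat.mod (Λ * (entW (ent S sh P i) - 549755813888)) (M * absE (ent S sh P i))) 0 then
        bif Bool.xor sg (Nat.ble 549755813889 (entE (ent S sh P i))) then
          linA Λ S sh P A M sg (i + 1) n p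
            (m + Nat.div (Λ * (entW (ent S sh P i) - 549755813888)) (M * absE (ent S sh P i)))
        else
          linA Λ S sh P A M sg (i + 1) n
            (p + Nat.div (Λ * (entW (ent S sh P i) - 549755813888)) (M * absE (ent S sh P i))) m
      else none
    else linA Λ S sh P A M sg (i + 1) n p m

/-- polar part of a leaf with one factor `e = 0` -/
def pol1 (K u Λ S sh P A : ℕ) : Option (List ℤ) :=
  bif Nat.beq (cntA A 1 K) (4 + u) then
    (fun M => (fun w => bif Nat.beq (Nat.mod (Λ * w) M) 0 then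
      (bif sgA S sh P A 1 K then some [-((Nat.div (Λ * w) M : ℕ) : ℤ)]
        else some [((Nat.div (Λ * w) M : ℕ) : ℤ)])
      else none) (entW (ent S sh P 0) - 549755813888)) (prA S sh P A 1 K)
  else bif Nat.beq (cntA A 1 K + 1) (4 + u) then
    linA Λ S sh P A (prA S sh P A 1 K) (sgA S sh P A 1 K) 1 K 0 0
  else some []

def isN {α : Type} : Option α → Bool
  | none => true
  | some _ => false

def polQ (K u : ℕ) (Λ : ℕ) (S sh P A : ℕ) : ℕ → Option (List ℤ)
  | 0 => some []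
  | 1 => (fun r => bif isN r then leafS K u Λ S sh P A else r) (pol1 K u Λ S sh P A)
  | _ => leafS K u Λ S sh P A

def leafQ (K u : ℕ) (Λ : ℕ) (lin : Bool) (S sh P A : ℕ) : Option (List ℤ) :=
  bif okA lin S sh P A 1 K && Nat.ble 549755813888 (entW (ent S sh P 0)) then
    polQ K u Λ S sh P A (cntZ S sh P A 1 K)
  else none

def addO : Option (List ℤ) → Option (List ℤ) → Option (List ℤ)
  | none, _ => none
  | some _, none => none
  | some a, some b => some (addF a b)

/-- cone phase -/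
def runQ (K u : ℕ) (Λ : ℕ) (lin : Bool) (S sh Z ZZ CM : ℕ) :
    CT → ℕ → ℕ → ℕ → Option (List ℤ)
  | .e, _, A, P =>
    bif Nat.beq (Nat.land (foldQ S (ZZ - P)) CM) 0 then
      bif Nat.beq (Nat.land (foldQ S P) CM) CM then leafQ K u Λ lin S sh P A else none
    else some []
  | .n i j l r, d, A, P =>
    bif Nat.ble 1 d && (Nat.testBit A i && Nat.testBit A j) then
      bif Nat.beq i j then
        addO (runQ K u Λ lin S sh Z ZZ CM l (d - 1) (A - Nat.shiftLeft 1 i) (zeroQ S Z P i))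
          (runQ K u Λ lin S sh Z ZZ CM r (d - 1) A (bumpQ S Z P 0 i))
      else
        addO (runQ K u Λ lin S sh Z ZZ CM l (d - 1) A (bumpQ S Z P i j))
          (runQ K u Λ lin S sh Z ZZ CM r (d - 1) A (bumpQ S Z (bumpQ S Z P 0 i) j i))
    else none

def smallF (K : ℕ) (f : Fm) : Bool :=
  f.all (fun a => decide (-31 ≤ a) && decide (a ≤ 31)) && Nat.ble f.length (K + 1)

def startQ (K u : ℕ) (Λ : ℕ) (t : CT) (C : List Fm) (w e f : Fm) : Option (List ℤ) :=
  let C' := C.filter (fun c => !allNN c)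
  let fs := C' ++ [w, e, f]
  let nc := C'.length
  bif fs.all (smallF K) && Nat.ble K 7 && Nat.ble K (4 + u) then
    let S := 40 * (nc + 3)
    let Z := zQ (nc + 3)
    runQ K u Λ (Nat.ble (K + 1) (4 + u)) S (40 * nc) Z (repQ (2 * Z) S 8 - oQ (nc + 3)) (zQ nc) t 33
      (Nat.shiftLeft 1 (K + 1) - 2) (stQ fs S 0 8)
  else none

/-- sum of the forms with the given indices -/
def selF (C : List Fm) : List ℕ → Fm
  | [] => []
  | i :: l => addF (C.getD i []) (selF C l)

def run1Q (K u Λ : ℕ) : Fac → PT → List Fm → Option (List ℤ)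
  | .zr, _, _ => some []
  | .lf w e f, .l t, C => startQ K u Λ t C w e f
  | .lf _ _ _, _, _ => none
  | .it c a b, p, C =>
    bif allNN c then run1Q K u Λ a p C else
    bif dead c then run1Q K u Λ b p C else
    match p with
    | .b x y => addO (run1Q K u Λ a x (c :: C)) (run1Q K u Λ b y (addF [-1] (negF c) :: C))
    | .t m x => bif dead (selF (addF [-1] (negF c) :: C) m) then run1Q K u Λ a x C else none
    | .f m x => bif dead (selF (c :: C) m) then run1Q K u Λ b x C else none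
    | _ => none

def chkQ (K u Λ : ℕ) (p : PT) (F : Fac) : Option (List ℤ) := run1Q K u Λ F p []

/-! ### Soundness statements -/

/-- the polar part at `s = 0` of the sum of the limits of the terms -/
def PolOK (Λ : ℤ) (L : List Tm) (l : List ℤ) : Prop :=
  ∃ N D : ℚ[X], D.eval 0 ≠ 0 ∧ ∀ s : ℚ, s ≠ 0 → (∀ t ∈ L, t.reg s) →
    D.eval s ≠ 0 ∧ (L.map (Tm.lim s)).sum = pval Λ s l + N.eval s / D.eval s

open Classical in
def GoodS (K u : ℕ) (Λ : ℤ) (C : List Fm) (F : Fac) (l : List ℤ) : Prop :=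
  ∃ L : List Tm, okL L ∧ (∀ t ∈ L, t.ds.length ≤ 4 + u) ∧ PolOK Λ (top u L) l ∧
    ∀ q x : ℝ, 1 < q → 0 < x → x ≤ q⁻¹ ^ 5 → 0 ≤ sv q x L ∧
      (∑' v : Fin K → ℕ, if ∀ c ∈ C, 0 ≤ ev c v then ENNReal.ofReal (F.val q x v) else 0) =
        ENNReal.ofReal (sv q x L)

/-- entries of absolute value less than `b` -/
def Bd (b : ℤ) (fs : List Fm) : Prop := ∀ f ∈ fs, ∀ a ∈ f, |a| < b

def enq (fs : List Fm) (k i : ℕ) : ℤ := (fs.getD k []).getD i 0

/-- the packed state of a list of forms -/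
def stP (fs : List Fm) : ℕ := stQ fs (40 * fs.length) 0 8

/-- packing -/
def FQaStmt : Prop :=
  ∀ (fs : List Fm) (m S : ℕ), fs.length = m → S = 40 * m → Bd 274877906944 fs →
    (∀ i j : ℕ, i < 8 → j < 8 → bumpQ S (zQ m) (stP fs) i j = stP (fs.map (fun f => bump f i j))) ∧
    (∀ i : ℕ, i < 8 → zeroQ S (zQ m) (stP fs) i = stP (fs.map (fun f => f.set i 0))) ∧
    (∀ nc : ℕ, nc ≤ m →
      Nat.land (foldQ S (stP fs)) (zQ nc) = zQ nc → ∀ k < nc, ∀ i < 8, 0 ≤ enq fs k i) ∧
    (∀ nc : ℕ, nc ≤ m →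
      Nat.land (foldQ S (repQ (2 * zQ m) S 8 - oQ m - stP fs)) (zQ nc) ≠ 0 →
      ∃ k < nc, enq fs k 0 < 0 ∧ ∀ i, 1 ≤ i → i < 8 → enq fs k i ≤ 0) ∧
    (∀ nc : ℕ, m = nc + 3 → ∀ i < 8,
      (entW (ent S (40 * nc) (stP fs) i) : ℤ) = 549755813888 + enq fs nc i ∧
      (entE (ent S (40 * nc) (stP fs) i) : ℤ) = 549755813888 + enq fs (nc + 1) i ∧
      (entF (ent S (40 * nc) (stP fs) i) : ℤ) = 549755813888 + enq fs (nc + 2) i)

/-- a leaf; purely about the decoding functions -/
def FQbStmt : Prop :=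
  ∀ (K u Λ S sh P A : ℕ) (l : List ℤ), Λ ≠ 0 → K ≤ 4 + u →
    (∀ i, 1 ≤ i → i ≤ K → Nat.testBit A i = false → 549755813888 ≤ entW (ent S sh P i)) →
    leafQ K u Λ (Nat.ble (K + 1) (4 + u)) S sh P A = some l →
    ∃ L : List Tm, leafT K (mQ A 1 K) (unW S sh P 0 (K + 1)) (unE S sh P 0 (K + 1))
        (unF S sh P 0 (K + 1)) = some L ∧
      (∀ t ∈ L, t.ds.length ≤ 4 + u) ∧ PolOK Λ (top u L) l

def FQbAsm : Prop := PolStmt → LeafStmt → FQbStmt

/-- the cone phase -/
def FQcStmt : Prop :=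
  ∀ (K u Λ : ℕ) (t : CT) (C : List Fm) (w e f : Fm) (l : List ℤ), Λ ≠ 0 →
    startQ K u Λ t C w e f = some l → GoodS K u Λ C (.lf w e f) l

def FQcAsm : Prop := LeafStmt → FQaStmt → FQbStmt → FQcStmt

def FQdStmt : Prop :=
  ∀ (K u Λ : ℕ) (p : PT) (F : Fac) (l : List ℤ), Λ ≠ 0 → chkQ K u Λ p F = some l →
    GoodS K u Λ [] F l

def FQdAsm : Prop := FQcStmt → FQdStmt

def FinalSStmt : Prop :=
  ∀ (Λ : ℤ) (P : List (List ℤ × List ℤ)), Λ ≠ 0 →
    List.Forall₂ (fun (B : Blk) (p : List ℤ × List ℤ) =>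
      GoodS B.K B.u Λ [] B.A p.1 ∧ GoodS B.K (B.u + 1) Λ [] B.B p.2) blks P →
    (∀ a ∈ polSum blks P, a = 0) →
    ∃ N D : ℚ[X], IsTopZeta cH N D ∧ D.eval 0 ≠ 0

def FinalSAsm : Prop := S2Stmt → S3Stmt → TopStmt → FinalSStmt

end Pool.Agent.TH32
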