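import Pool.Agent.TH32.H.Lim

set_option autoImplicit false

/-! The topological zeta function in the strong form: the local values extend continuously. -/

namespace Pool.Agent.TH32

open Polynomial Pool.Agent.H260TZ

/-- `IsTopZetaC c N D`: the rational function `N/D` is the topological subalgebra zeta function
of the `ℤ`-algebra with structure constants `c`: outside a finite set `H` of integers `s`, for
every prime `ℓ` and all but finitely many primes `p` there is `e ≥ 1` such that the map sending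
`f ≥ 1` to the value at `s` of the local zeta function (times `(1 - 1/q)^d`) over the ring
`WittVector p (GaloisField p (e f))`, `q = p^(e f)`, extends to a continuous function on the
`ℓ`-adic integers, with value `N(s)/D(s)` at `0`. -/
def IsTopZetaC {d : ℕ} (c : Fin d → Fin d → Fin d → ℤ) (N D : ℚ[X]) : Prop :=
  D ≠ 0 ∧ ∃ H : Set ℤ, H.Finite ∧ ∀ (ℓ : ℕ) [Fact ℓ.Prime],
    ∃ S : Set ℕ, S.Finite ∧ ∀ (p : ℕ) [Fact p.Prime], p ∉ S →
      ∃ e : ℕ, 1 ≤ e ∧ ∀ s : ℤ, s ∉ H → D.eval (s : ℚ) ≠ 0 ∧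
        ∃ g : ℤ_[ℓ] → ℚ_[ℓ], Continuous g ∧
          g 0 = ((N.eval (s : ℚ) / D.eval (s : ℚ) : ℚ) : ℚ_[ℓ]) ∧
          ∀ f : ℕ, 1 ≤ f →
            ∃ v : ℚ, ZVal c (WittVector p (GaloisField p (e * f))) (p ^ (e * f)) s v ∧
              g (f : ℤ_[ℓ]) = (v : ℚ_[ℓ])

/-- the strong form implies the form with a limit -/
def CImpStmt : Prop :=
  ∀ (d : ℕ) (c : Fin d → Fin d → Fin d → ℤ) (N D : ℚ[X]), IsTopZetaC c N D → IsTopZeta c N D

def TopCStmt : Prop :=
  ∀ L : List PB, (∀ p ∈ L, p.ok) → Loc L →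
    ∀ (N Dn : ℚ[X]) (H : Set ℤ), Dn ≠ 0 → H.Finite →
      (∀ s : ℤ, s ∉ H → Dn.eval (s : ℚ) ≠ 0 ∧
        (L.map (PB.lim s)).sum = N.eval (s : ℚ) / Dn.eval (s : ℚ)) →
      IsTopZetaC cH N Dn

def TopCAsm : Prop := IdxPowStmt → RatStmt → PBLimStmt → TopCStmt

end Pool.Agent.TH32
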