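import Pool.Agent.TH32.H.Asm
import Pool.Agent.TH32.H.Fast
import Pool.Agent.TH32.H.Strong
import Pool.Agent.TH740.TZH_FQA
import Pool.Agent.TH740.TZH_FQB
import Pool.Agent.TH75.TZH_FQc
import Pool.Agent.TH443.TZH_FQd
import Pool.Agent.TH97.TZH_FINS

set_option autoImplicit false

namespace Pool.Agent.TH32

open Polynomial Pool.Agent.H260TZ

theorem asm_fqd : FQdStmt :=
  TH443.fqd (TH75.fqc TH55.TL.leafT_sound TH740.FQA.fqa (TH740.FQB.fqb asm_pol TH55.TL.leafT_sound))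

theorem asm_finS : FinalSStmt := TH97.TZH.finS asm_S2 asm_S3 asm_top

theorem fgood {K u : ℕ} {p : PT} {F : Fac} {l : List ℤ}
    (h : chkQ K u 10897286400000 p F = some l) :
    GoodS K u ((10897286400000 : ℕ) : ℤ) [] F l :=
  asm_fqd K u 10897286400000 p F l (by norm_num) h

/-- the final assembly with the strong form as conclusion -/
theorem finC (hTop : TopCStmt) (Λ : ℤ) (P : List (List ℤ × List ℤ))
    (hF : List.Forall₂ (fun (B : Blk) (p : List ℤ × List ℤ) =>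
      GoodS B.K B.u Λ [] B.A p.1 ∧ GoodS B.K (B.u + 1) Λ [] B.B p.2) blks P)
    (hz : ∀ a ∈ polSum blks P, a = 0) :
    ∃ N D : ℚ[X], IsTopZetaC cH N D ∧ D.eval 0 ≠ 0 := by
  obtain ⟨L, hL⟩ := TH97.TZH.ext_existsS Λ blks P hF
  obtain ⟨N, Dn, H, hD0, hH, hlim⟩ := hL.lim
  refine ⟨N, Dn, ?_, hD0⟩
  have hDn : Dn ≠ 0 := by
    rintro rfl
    exact hD0 (by simp)
  refine hTop L hL.ok ?_ N Dn H hDn hH fun s hs => ?_
  · intro R _ _ D x hq hx hx5
    obtain ⟨hv0, hv⟩ := hL.val D.q x hq hx hx5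
    have h1 := asm_S2 R D x hx hq
    rw [asm_S3 D.q x hq hx, hv] at h1
    have h2 : (∑' U : FinSub cH R,
        ENNReal.ofReal (x ^ Nat.log D.q (Nat.card ((Fin 4 → R) ⧸ U.1)))) ≠ ⊤ := by
      rw [h1]; exact ENNReal.ofReal_ne_top
    have h3 := ENNReal.hasSum_toReal h2
    rw [← ENNReal.tsum_toReal_eq (fun _ => ENNReal.ofReal_ne_top), h1,
      ENNReal.toReal_ofReal hv0] at h3
    refine h3.congr_fun ?_
    intro U
    rw [ENNReal.toReal_ofReal (by positivity)]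
  · obtain ⟨h1, h2⟩ := hlim s hs
    refine ⟨h1, ?_⟩
    rw [h2, TH740.TZH.pval_zero Λ s _ hz, zero_add]

end Pool.Agent.TH32
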