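import Pool.Agent.TH32.H.Def

set_option autoImplicit false

/-! A checker for sums over lattice points of polyhedral cells. -/

namespace Pool.Agent.TH32

/-- affine form: constant term first, then the coefficients of the variables -/
abbrev Fm := List ℤ

def addF : Fm → Fm → Fm
  | [], g => g
  | a :: f, [] => a :: f
  | a :: f, b :: g => (a + b) :: addF f g

def negF : Fm → Fm
  | [] => []
  | a :: f => (-a) :: negF f

def subF (f g : Fm) : Fm := addF f (negF g)

/-- value of a form at a point -/
def ev {K : ℕ} (f : Fm) (v : Fin K → ℕ) : ℤ :=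
  f.getD 0 0 + ∑ i : Fin K, f.getD (i.1 + 1) 0 * (v i : ℤ)

/-- decision trees; the value of `lf w e f` is `w q^e x^f` -/
inductive Fac
  | zr : Fac
  | lf (w e f : Fm) : Fac
  | it (c : Fm) (a b : Fac) : Fac

noncomputable def Fac.val {K : ℕ} (q x : ℝ) (v : Fin K → ℕ) : Fac → ℝ
  | .zr => 0
  | .lf w e f => (ev w v : ℝ) * q ^ (ev e v) * x ^ (ev f v)
  | .it c a b => if 0 ≤ ev c v then a.val q x v else b.val q x v

/-- terms `c q^e x^f / ∏ (1 - q^a x^b)` -/
structure Tm where
  c : ℤ
  e : ℤ
  f : ℤ
  ds : List (ℤ × ℤ)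

noncomputable def Tm.val {F : Type} [Field F] (q x : F) (t : Tm) : F :=
  (t.c : F) * q ^ t.e * x ^ t.f / (t.ds.map (fun d => 1 - q ^ d.1 * x ^ d.2)).prod

/-- admissible factors -/
def okd (d : ℤ × ℤ) : Bool :=
  (decide (d.2 = 0) && decide (d.1 < 0)) || (decide (1 ≤ d.2) && decide (d.1 < 5 * d.2))

def allNN : Fm → Bool
  | [] => true
  | a :: f => decide (0 ≤ a) && allNN f

def allNP : Fm → Bool
  | [] => true
  | a :: f => decide (a ≤ 0) && allNP f

/-- the form is negative everywhere -/
def dead : Fm → Bool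
  | [] => false
  | a :: f => decide (a < 0) && allNP f

/-- add `a` to entry `i` -/
def putF : Fm → ℕ → ℤ → Fm
  | [], 0, a => [a]
  | [], i + 1, a => 0 :: putF [] i a
  | b :: f, 0, a => (b + a) :: f
  | b :: f, i + 1, a => b :: putF f i a

/-- add entry `j` to entry `i` -/
def bump (f : Fm) (i j : ℕ) : Fm := putF f i (f.getD j 0)

/-- the factors of a leaf: the variables `k, k+1, …, k + n - 1` not in `M` -/
def dss (M : List ℕ) (e f : Fm) : ℕ → ℕ → List (ℤ × ℤ)
  | _, 0 => []
  | k, n + 1 => if M.contains k then dss M e f (k + 1) n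
    else (e.getD k 0, f.getD k 0) :: dss M e f (k + 1) n

/-- the terms coming from the linear part of the weight -/
def wts (M : List ℕ) (w e f : Fm) (ds : List (ℤ × ℤ)) : ℕ → ℕ → List Tm
  | _, 0 => []
  | k, n + 1 =>
    let r := wts M w e f ds (k + 1) n
    if M.contains k || decide (w.getD k 0 = 0) then r
    else ⟨w.getD k 0, e.getD 0 0 + e.getD k 0, f.getD 0 0 + f.getD k 0,
      (e.getD k 0, f.getD k 0) :: ds⟩ :: r

/-- the terms of a leaf -/
def leafT (K : ℕ) (M : List ℕ) (w e f : Fm) : Option (List Tm) :=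
  let ds := dss M e f 1 K
  if allNN w && ds.all okd then
    some ((if w.getD 0 0 = 0 then [] else [⟨w.getD 0 0, e.getD 0 0, f.getD 0 0, ds⟩]) ++
      wts M w e f ds 1 K)
  else none

/-- second phase: sum of `w q^e x^f` over the points with all forms of `C` nonnegative and the
variables in `M` zero; code `8 i + j`: compare variables `i`, `j`; code `9 i`: split off
variable `i` zero. -/
def run2 (K : ℕ) : ℕ → List ℕ → List ℕ → List Fm → Fm → Fm → Fm → Option (List Tm × List ℕ)
  | 0, _, _, _, _, _, _ => none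
  | n + 1, cert, M, C, w, e, f =>
    if C.any dead then some ([], cert) else
    match C.filter (fun c => !allNN c) with
    | [] => match leafT K M w e f with
      | none => none
      | some L => some (L, cert)
    | c₀ :: C₀ =>
      let C' := c₀ :: C₀
      match cert with
      | [] => none
      | a :: cert =>
        let i := a / 8
        let j := a % 8
        if 1 ≤ i && i ≤ K && 1 ≤ j && j ≤ K && !M.contains i && !M.contains j then
          if i = j then
            -- variable i zero
            match run2 K n cert (i :: M) (C'.map (fun c => c.set i 0)) (w.set i 0) (e.set i 0)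
                (f.set i 0) with
            | none => none
            | some (L₁, cert₁) =>
              match run2 K n cert₁ M (C'.map (fun c => bump c 0 i)) (bump w 0 i) (bump e 0 i)
                  (bump f 0 i) with
              | none => none
              | some (L₂, cert₂) => some (L₁ ++ L₂, cert₂)
          else
            -- v i ≤ v j : v j := v i + v j
            match run2 K n cert M (C'.map (fun c => bump c i j)) (bump w i j) (bump e i j)
                (bump f i j) with
            | none => none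
            | some (L₁, cert₁) =>
              -- v j < v i : v i := v i + v j + 1
              match run2 K n cert₁ M (C'.map (fun c => bump (bump c 0 i) j i))
                  (bump (bump w 0 i) j i) (bump (bump e 0 i) j i) (bump (bump f 0 i) j i) with
              | none => none
              | some (L₂, cert₂) => some (L₁ ++ L₂, cert₂)
        else none

/-- `∑ μ_i C_i` and the rest of the certificate -/
def comb : List Fm → List ℕ → Fm × List ℕ
  | [], cert => ([], cert)
  | _ :: _, [] => ([], [])
  | c :: C, m :: cert =>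
    let r := comb C cert
    (if m = 0 then r.1 else addF (c.map (fun a => (m : ℤ) * a)) r.1, r.2)

/-- first phase: resolve the decision tree. Codes: 0 split, 1 the first alternative (the second
one is infeasible, followed by multipliers), 2 the second alternative. -/
def run1 (K : ℕ) (F2 : ℕ) : ℕ → List ℕ → List Fm → Fac → Option (List Tm × List ℕ)
  | 0, _, _, _ => none
  | _ + 1, cert, _, .zr => some ([], cert)
  | _ + 1, cert, C, .lf w e f => run2 K F2 cert [] C w e f
  | n + 1, cert, C, .it c a b =>
    if allNN c then run1 K F2 n cert C a else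
    if dead c then run1 K F2 n cert C b else
    match cert with
    | 0 :: cert =>
      match run1 K F2 n cert (c :: C) a with
      | none => none
      | some (L₁, cert₁) =>
        match run1 K F2 n cert₁ (addF [-1] (negF c) :: C) b with
        | none => none
        | some (L₂, cert₂) => some (L₁ ++ L₂, cert₂)
    | 1 :: cert =>
      match comb (addF [-1] (negF c) :: C) cert with
      | (s, cert₁) => if dead s then run1 K F2 n cert₁ C a else none
    | 2 :: cert =>
      match comb (c :: C) cert with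
      | (s, cert₁) => if dead s then run1 K F2 n cert₁ C b else none
    | _ => none

/-- the variables in `M` vanish -/
def Msk {K : ℕ} (M : List ℕ) (v : Fin K → ℕ) : Prop := ∀ i : Fin K, i.1 + 1 ∈ M → v i = 0

/-- the value of a list of terms -/
noncomputable def sv (q x : ℝ) (L : List Tm) : ℝ := (L.map (fun t => t.val q x)).sum

def okL (L : List Tm) : Prop := ∀ t ∈ L, 0 ≤ t.c ∧ t.ds.all okd = true

def LeafStmt : Prop :=
  ∀ (K : ℕ) (M : List ℕ) (w e f : Fm) (L : List Tm), leafT K M w e f = some L →
    okL L ∧ ∀ q x : ℝ, 1 < q → 0 < x → x ≤ q⁻¹ ^ 5 → 0 ≤ sv q x L ∧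
      (open Classical in ∑' v : Fin K → ℕ, if Msk M v then
        ENNReal.ofReal ((ev w v : ℝ) * q ^ ev e v * x ^ ev f v) else 0) = ENNReal.ofReal (sv q x L)

def Run2Stmt : Prop :=
  ∀ (K n : ℕ) (cert cert' : List ℕ) (M : List ℕ) (C : List Fm) (w e f : Fm) (L : List Tm),
    run2 K n cert M C w e f = some (L, cert') →
    okL L ∧ ∀ q x : ℝ, 1 < q → 0 < x → x ≤ q⁻¹ ^ 5 → 0 ≤ sv q x L ∧
      (open Classical in ∑' v : Fin K → ℕ, if Msk M v ∧ ∀ c ∈ C, 0 ≤ ev c v then
        ENNReal.ofReal ((ev w v : ℝ) * q ^ ev e v * x ^ ev f v) else 0) = ENNReal.ofReal (sv q x L)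

def Run1Stmt : Prop :=
  ∀ (K F2 n : ℕ) (cert cert' : List ℕ) (C : List Fm) (F : Fac) (L : List Tm),
    run1 K F2 n cert C F = some (L, cert') →
    okL L ∧ ∀ q x : ℝ, 1 < q → 0 < x → x ≤ q⁻¹ ^ 5 → 0 ≤ sv q x L ∧
      (open Classical in ∑' v : Fin K → ℕ, if ∀ c ∈ C, 0 ≤ ev c v then
        ENNReal.ofReal (F.val q x v) else 0) = ENNReal.ofReal (sv q x L)

/-- soundness of the checker -/
def SoundStmt : Prop :=
  ∀ (K F2 n : ℕ) (cert cert' : List ℕ) (F : Fac) (L : List Tm),
    run1 K F2 n cert [] F = some (L, cert') →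
    okL L ∧ ∀ q x : ℝ, 1 < q → 0 < x → x ≤ q⁻¹ ^ 5 → 0 ≤ sv q x L ∧
      (∑' v : Fin K → ℕ, ENNReal.ofReal (F.val q x v)) = ENNReal.ofReal (sv q x L)

/-- the four jobs -/
def Run2Asm : Prop := LeafStmt → Run2Stmt
def Run1Asm : Prop := Run2Stmt → Run1Stmt ∧ SoundStmt

/-! ### The local function as a decision tree -/

def mnK (a b : Fm) (k : Fm → Fac) : Fac := .it (subF b a) (k a) (k b)
def mxK (a b : Fm) (k : Fm → Fac) : Fac := .it (subF b a) (k b) (k a)
def rq (a b : Fm) (t : Fac) : Fac := .it (subF b a) t .zr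

/-- common part of `F1` and `F2`; the continuation gets
`(rg, rh, T, G, H, base)` with `rg = b + s + d - Md`, `rh = b + s + c - Mc` -/
def FFc (b n mc md Mc Md Je s₀ c₀ d₀ e₀ E : Fm) (k : Fm → Fm → Fm → Fm → Fm → Fm → Fac) : Fac :=
  rq n (addF mc md) <|
  mnK s₀ n fun s =>
  let bs := addF b s
  rq Mc bs <| rq Md bs <|
  mnK c₀ n fun c => mnK d₀ n fun d =>
  let bcd := addF b (addF c d)
  rq (addF n Mc) bcd <| rq (addF n Md) bcd <|
  let rh := subF (addF bs c) Mc
  let rg := subF (addF bs d) Md
  mnK mc n fun x => rq x rh <|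
  mnK md n fun y => rq y rg <|
  mnK e₀ n fun e =>
  let bj := subF b Je
  mxK bj [] fun bJ =>
  mnK n (addF e bJ) fun T =>
  mxK (subF n md) [] fun G => mxK (subF n mc) [] fun H =>
  k rg rh T G H (addF E (addF (subF T n) (subF bj bJ)))

def FF1 (b n mc md Mc Md Je s₀ c₀ d₀ e₀ E X : Fm) : Fac :=
  FFc b n mc md Mc Md Je s₀ c₀ d₀ e₀ E fun rg rh T G H base =>
  .it (subF rg n)
    (.it (subF rh n)
      (.it (subF (addF G H) T) (.lf [1] (subF base (addF G H)) X) (.lf [1] (subF base T) X))
      (mxK G (subF T (subF rh mc)) fun g => .lf [1] (subF base (addF g H)) X))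
    (.it (subF rh n)
      (mxK H (subF T (subF rg md)) fun h => .lf [1] (subF base (addF h G)) X)
      (rq T (addF (subF rg md) (subF rh mc)) (.lf [1] (subF base (addF G H)) X)))

def FF2 (b n mc md Mc Md Je s₀ c₀ d₀ e₀ E X : Fm) : Fac :=
  FFc b n mc md Mc Md Je s₀ c₀ d₀ e₀ E fun rg rh T G H base =>
  rq n rg <| rq n rh <| rq (addF [1] (addF G H)) T <|
    .lf (subF T (addF G H)) (subF base T) X

/-- values of `FF1`, `FF2` -/
def FFvalStmt : Prop :=
  ∀ (K : ℕ) (v : Fin K → ℕ) (q x : ℝ), 0 < q → 0 < x →
    ∀ b n mc md Mc Md Je s c d e E X : Fm,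
    (FF1 b n mc md Mc Md Je s c d e E X).val q x v =
      q ^ ev E v * x ^ ev X v * F1 q (ev b v) (ev n v) (ev mc v) (ev md v) (ev Mc v) (ev Md v)
        (ev Je v) (ev s v) (ev c v) (ev d v) (ev e v) ∧
    (FF2 b n mc md Mc Md Je s c d e E X).val q x v =
      q ^ ev E v * x ^ ev X v * F2 q (ev b v) (ev n v) (ev mc v) (ev md v) (ev Mc v) (ev Md v)
        (ev Je v) (ev s v) (ev c v) (ev d v) (ev e v)

end Pool.Agent.TH32
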