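import Pool.Agent.TH32.H.Stmts
import Pool.Agent.TH32.H.Tool

set_option autoImplicit false

/-! The local zeta function as a list of blocks of lattice sums. Variables: `v 0 = b`, `v 1 = n`,
`v 2 = m`, then `g'`, `h'` (if present), `t`, and the last one `y` or `i` (if present). -/

namespace Pool.Agent.TH32

/-- `m (1 - 1/q)^u (1 - 2/q)^u2 (1 - 3/q)^u3` times the lattice sums of `A` and `(1 - 1/q) B` -/
structure Blk where
  K : ℕ
  m : ℕ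
  u : ℕ
  u2 : ℕ
  u3 : ℕ
  A : Fac
  B : Fac

noncomputable def kap (q : ℝ) (m u u2 u3 : ℕ) : ℝ :=
  m * (1 - q⁻¹) ^ u * (1 - 2 * q⁻¹) ^ u2 * (1 - 3 * q⁻¹) ^ u3

noncomputable def Blk.sum (q : ℕ) (x : ℝ) (B : Blk) : ENNReal :=
  ENNReal.ofReal (kap q B.m B.u B.u2 B.u3) *
    ((∑' v : Fin B.K → ℕ, ENNReal.ofReal (B.A.val q x v)) +
      ENNReal.ofReal (1 - (q : ℝ)⁻¹) * ∑' v : Fin B.K → ℕ, ENNReal.ofReal (B.B.val q x v))

def bF : Fm := [0, 1]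
def nF : Fm := [0, 0, 1]
def mF : Fm := [0, 0, 0, 1]

/-- a decision tree with a minimum or not, and conditions `p.1 ≤ p.2` -/
def sK (s : Fm × Option Fm) (k : Fm → Fac) : Fac :=
  match s with
  | (s₁, none) => k s₁
  | (s₁, some s₂) => mnK s₁ s₂ k

def cK (c : Option (Fm × Fm)) (t : Fac) : Fac :=
  match c with
  | none => t
  | some p => rq p.1 p.2 t

/-- leg d: valuations `g`, `h` -/
def legd (K m u u2 : ℕ) (g h : Fm) (c : Option (Fm × Fm)) (s : Fm × Option Fm)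
    (Y X Z mass : Fm) : Blk :=
  let mg := addF mF g
  let mh := addF mF h
  let mgh := addF mg h
  let E := subF (addF [0, 0, 3, 2] (addF g (addF h h))) mass
  let Xe := addF [0, 1, 1, 2] (addF g h)
  { K := K, m := m, u := u, u2 := u2, u3 := 0
    A := cK c (sK s fun s => FF1 bF nF mg mF mgh mh mgh s Y X Z E Xe)
    B := cK c (sK s fun s => FF2 bF nF mg mF mgh mh mgh s Y X Z E Xe) }

/-- leg e -/
def lege (K m u u2 : ℕ) (g h : Fm) (c : Option (Fm × Fm)) (s : Fm × Option Fm)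
    (Y X Z mass : Fm) : Blk :=
  let mh := addF mF h
  let mgh := addF (addF mF g) h
  let E := subF (addF [0, 0, 3, 2] (addF g (addF h h))) mass
  let Xe := addF [0, 1, 1, 2] (addF g h)
  { K := K, m := m, u := u, u2 := u2, u3 := 0
    A := cK c (sK s fun s => FF1 bF nF mF mF mgh mgh mh s Y Z X E Xe)
    B := cK c (sK s fun s => FF2 bF nF mF mF mgh mgh mh s Y Z X E Xe) }

/-- centre, `k = h` -/
def cen (K u u2 u3 : ℕ) (h : Fm) (c : Option (Fm × Fm)) (s : Fm × Option Fm)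
    (Y X Z mass : Fm) : Blk :=
  let mh := addF mF h
  let E := subF (addF [0, 0, 3, 2] (addF h h)) mass
  let Xe := addF [0, 1, 1, 2] h
  { K := K, m := 1, u := u, u2 := u2, u3 := u3
    A := cK c (sK s fun s => FF1 bF nF mF mF mh mh mh s Y X Z E Xe)
    B := cK c (sK s fun s => FF2 bF nF mF mF mh mh mh s Y X Z E Xe) }

/-- centre, `k = 0` -/
def B0 : List Blk :=
  let t : Fm := [0, 0, 0, 0, 1]
  let y : Fm := [0, 0, 0, 0, 0, 1]
  let ti : Fm := [1, 0, 0, 0, 1, 1]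
  [cen 5 2 0 0 [] (some (addF [1] y, t)) (t, some y) y t y (addF t y),
   cen 4 1 1 0 [] none (t, none) t t t (addF t t),
   cen 5 2 0 0 [] none (t, none) ti t t (addF t ti),
   cen 5 2 0 0 [] none (t, none) t t ti (addF t ti)]

def L0 (leg : ℕ → ℕ → ℕ → ℕ → Fm → Fm → Option (Fm × Fm) → Fm × Option Fm →
    Fm → Fm → Fm → Fm → Blk) (m : ℕ) : List Blk :=
  let g : Fm := [1, 0, 0, 0, 1]
  let t : Fm := [0, 0, 0, 0, 0, 1]
  let y : Fm := [0, 0, 0, 0, 0, 0, 1]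
  let gt : Fm := addF g t
  let gi : Fm := addF [1] (addF gt y)
  [leg 6 m 2 0 g [] (some (addF [1] y, gt)) (t, some y) y t y (addF t y),
   leg 5 m 1 1 g [] none (t, none) gt t gt (addF t gt),
   leg 6 m 2 0 g [] none (t, none) gi t gt (addF t gi),
   leg 6 m 2 0 g [] none (t, none) gt t gi (addF t gi)]

def L1 (leg : ℕ → ℕ → ℕ → ℕ → Fm → Fm → Option (Fm × Fm) → Fm × Option Fm →
    Fm → Fm → Fm → Fm → Blk) (m : ℕ) : List Blk :=
  let g : Fm := [1, 0, 0, 0, 1]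
  let h : Fm := [1, 0, 0, 0, 0, 1]
  let t : Fm := [0, 0, 0, 0, 0, 0, 1]
  let y : Fm := [0, 0, 0, 0, 0, 0, 0, 1]
  let r : Fm := addF h t
  let ri : Fm := addF [1] (addF r y)
  let gr : Fm := addF g r
  let gi : Fm := addF [1] (addF gr y)
  [leg 7 m 3 0 g h (some (addF [1] y, r)) (t, some y) y y y (addF t y),
   leg 6 m 2 1 g h none (t, none) r r r (addF t r),
   leg 7 m 3 0 g h none (t, none) r ri r (addF t ri),
   leg 7 m 3 0 g h (some (addF [2] y, g)) (t, none) ri r ri (addF t ri),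
   leg 6 m 2 1 g h none (t, none) gr r gr (addF t gr),
   leg 7 m 3 0 g h none (t, none) gi r gr (addF t gi),
   leg 7 m 3 0 g h none (t, none) gr r gi (addF t gi)]

def BC : List Blk :=
  let h : Fm := [1, 0, 0, 0, 1]
  let t : Fm := [0, 0, 0, 0, 0, 1]
  let y : Fm := [0, 0, 0, 0, 0, 0, 1]
  let r : Fm := addF h t
  let ri : Fm := addF [1] (addF r y)
  [cen 6 2 1 0 h (some (addF [1] y, r)) (t, some y) y y y (addF t y),
   cen 5 1 1 1 h none (t, none) r r r (addF t r),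
   cen 6 2 1 0 h none (t, none) r ri r (addF t ri),
   cen 6 2 1 0 h none (t, none) ri r r (addF t ri),
   cen 6 2 1 0 h none (t, none) r r ri (addF t ri)]

def blks : List Blk := B0 ++ (L0 legd 2 ++ (L0 lege 1 ++ (L1 legd 2 ++ (L1 lege 1 ++ BC))))

noncomputable def bsum (q : ℕ) (x : ℝ) (L : List Blk) : ENNReal := (L.map (Blk.sum q x)).sum

/-- weight of `b`, `m`, `n` -/
noncomputable def wbmn (q : ℕ) (x : ℝ) (b m n : ℕ) : ENNReal :=
  ENNReal.ofReal (x ^ (b + n + 2 * m) * (q : ℝ) ^ (3 * n + 2 * m))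

def S3c0Stmt : Prop := ∀ (q : ℕ) (x : ℝ), 3 ≤ q → 0 < x →
  (∑' b : ℕ, ∑' m : ℕ, ∑' n : ℕ, wbmn q x b m n *
    E0 q 0 (fun s Y X Z => ENNReal.ofReal (Fv q b n m m m m m s Y X Z))) = bsum q x B0

def S3d0Stmt : Prop := ∀ (q : ℕ) (x : ℝ), 3 ≤ q → 0 < x →
  (∑' b : ℕ, ∑' m : ℕ, ∑' n : ℕ, wbmn q x b m n * ∑' g' : ℕ, ENNReal.ofReal ((x * q) ^ (g' + 1)) *
    E0 q (g' + 1) (fun s Y X Z => ENNReal.ofReal
      (Fv q b n (m + g' + 1) m (m + g' + 1) m (m + g' + 1) s Y X Z))) = bsum q x (L0 legd 1)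

def S3e0Stmt : Prop := ∀ (q : ℕ) (x : ℝ), 3 ≤ q → 0 < x →
  (∑' b : ℕ, ∑' m : ℕ, ∑' n : ℕ, wbmn q x b m n * ∑' g' : ℕ, ENNReal.ofReal ((x * q) ^ (g' + 1)) *
    E0 q (g' + 1) (fun s Y X Z => ENNReal.ofReal
      (Fv q b n m m (m + g' + 1) (m + g' + 1) m s Y Z X))) = bsum q x (L0 lege 1)

def S3d1Stmt : Prop := ∀ (q : ℕ) (x : ℝ), 3 ≤ q → 0 < x →
  (∑' b : ℕ, ∑' m : ℕ, ∑' n : ℕ, wbmn q x b m n * ∑' g' : ℕ, ∑' h' : ℕ,
    ENNReal.ofReal ((1 - (q : ℝ)⁻¹) * (x * q) ^ (g' + h' + 2) * (q : ℝ) ^ (h' + 1)) *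
    E1 q (g' + 1) (h' + 1) (fun s Y X Z => ENNReal.ofReal
      (Fv q b n (m + g' + 1) m (m + g' + h' + 2) (m + h' + 1) (m + g' + h' + 2) s Y X Z))) =
    bsum q x (L1 legd 1)

def S3e1Stmt : Prop := ∀ (q : ℕ) (x : ℝ), 3 ≤ q → 0 < x →
  (∑' b : ℕ, ∑' m : ℕ, ∑' n : ℕ, wbmn q x b m n * ∑' g' : ℕ, ∑' h' : ℕ,
    ENNReal.ofReal ((1 - (q : ℝ)⁻¹) * (x * q) ^ (g' + h' + 2) * (q : ℝ) ^ (h' + 1)) *
    E1 q (g' + 1) (h' + 1) (fun s Y X Z => ENNReal.ofReal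
      (Fv q b n m m (m + g' + h' + 2) (m + g' + h' + 2) (m + h' + 1) s Y Z X))) =
    bsum q x (L1 lege 1)

def S3cStmt : Prop := ∀ (q : ℕ) (x : ℝ), 3 ≤ q → 0 < x →
  (∑' b : ℕ, ∑' m : ℕ, ∑' n : ℕ, wbmn q x b m n * ∑' h' : ℕ,
    ENNReal.ofReal ((1 - 2 * (q : ℝ)⁻¹) * (x * q) ^ (h' + 1) * (q : ℝ) ^ (h' + 1)) *
    Ec q (h' + 1) (fun s Y X Z => ENNReal.ofReal
      (Fv q b n m m (m + h' + 1) (m + h' + 1) (m + h' + 1) s Y X Z))) = bsum q x BC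

def S3Stmt : Prop := ∀ (q : ℕ) (x : ℝ), 3 ≤ q → 0 < x → ZS q x = bsum q x blks

end Pool.Agent.TH32
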