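import Pool.Agent.H260TZ.Inst

namespace Pool.Agent.TH32

open Pool.Agent.H260TZ

/-- structure constants of the algebra with basis `a, b, c, d` and products `a b = c`, `b a = d`,
`c d = a` -/
def cH : Fin 4 → Fin 4 → Fin 4 → ℤ := fun i j k =>
  if (i = 0 ∧ j = 1 ∧ k = 2) ∨ (i = 1 ∧ j = 0 ∧ k = 3) ∨ (i = 2 ∧ j = 3 ∧ k = 0) then 1 else 0

/-- the module with coordinates `((c, d), a)` -/
abbrev MR (R : Type) [CommRing R] : Type := (R × R) × R

section
variable {R : Type} [CommRing R] [IsDomain R] (D : DV R)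

/-- the lattice with basis `((-t^m z, t^m), τ₁)`, `((t^(m+k), 0), τ₂)`, `((0, 0), t^n)` -/
def NN (m k : ℕ) (z : R) (n : ℕ) (τ₁ τ₂ : R) : Submodule R (MR R) :=
  Submodule.span R {((-(D.t ^ m * z), D.t ^ m), τ₁), ((D.t ^ (m + k), 0), τ₂), ((0, 0), D.t ^ n)}

def C1 (N : Submodule R (MR R)) : Prop :=
  ∀ u ∈ N, ∀ v ∈ N, (((0, 0), u.1.1 * v.1.2) : MR R) ∈ N

def C2 (b : ℕ) (N : Submodule R (MR R)) (wd : R) : Prop :=
  ∀ u ∈ N, (((D.t ^ b * u.2, 0), u.1.1 * wd) : MR R) ∈ N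

def C3 (b : ℕ) (N : Submodule R (MR R)) (wc : R) : Prop :=
  ∀ u ∈ N, (((0, D.t ^ b * u.2), wc * u.1.2) : MR R) ∈ N

def C4 (b : ℕ) (N : Submodule R (MR R)) (wc wd wa : R) : Prop :=
  (((D.t ^ b * wa, D.t ^ b * wa), wc * wd) : MR R) ∈ N

/-- the span of `N` and `(t^b, w)` is closed -/
def Clos (b : ℕ) (N : Submodule R (MR R)) (w : MR R) : Prop :=
  C1 N ∧ C2 D b N w.1.2 ∧ C3 D b N w.1.1 ∧ C4 D b N w.1.1 w.1.2 w.2

/-- the number of `w` modulo `N` -/
noncomputable def cntC (b : ℕ) (N : Submodule R (MR R)) : ℕ :=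
  Nat.card {w : MR R ⧸ N // ∃ v, Submodule.Quotient.mk v = w ∧ Clos D b N v}

end

/-- the local function, first part -/
noncomputable def F1 (q : ℝ) (b n mc md Mc Md Je s₀ c₀ d₀ e₀ : ℤ) : ℝ :=
  let s := min s₀ n; let c := min c₀ n; let d := min d₀ n; let e := min e₀ n
  let T := min n (e + max (b - Je) 0)
  let G := max (n - md) 0
  let H := max (n - mc) 0
  if n ≤ mc + md ∧ Mc ≤ b + s ∧ Md ≤ b + s ∧ n + Mc ≤ b + c + d ∧ n + Md ≤ b + c + d ∧
      min mc n + Mc ≤ b + s + c ∧ min md n + Md ≤ b + s + d then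
    q ^ (-(max (Je - b) 0 + (n - T))) *
    (if n + Md ≤ b + s + d then
      if n + Mc ≤ b + s + c then
        if T ≤ G + H then q ^ (-(G + H)) else q ^ (-T)
      else q ^ (-(max G (T - (b + s + c - Mc - mc)) + H))
    else
      if n + Mc ≤ b + s + c then q ^ (-(max H (T - (b + s + d - Md - md)) + G))
      else if T ≤ (b + s + d - Md - md) + (b + s + c - Mc - mc) then q ^ (-(G + H)) else 0)
  else 0

/-- the local function, second part -/
noncomputable def F2 (q : ℝ) (b n mc md Mc Md Je s₀ c₀ d₀ e₀ : ℤ) : ℝ :=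
  let s := min s₀ n; let c := min c₀ n; let d := min d₀ n; let e := min e₀ n
  let T := min n (e + max (b - Je) 0)
  let G := max (n - md) 0
  let H := max (n - mc) 0
  if n ≤ mc + md ∧ Mc ≤ b + s ∧ Md ≤ b + s ∧ n + Mc ≤ b + c + d ∧ n + Md ≤ b + c + d ∧
      min mc n + Mc ≤ b + s + c ∧ min md n + Md ≤ b + s + d then
    q ^ (-(max (Je - b) 0 + (n - T))) *
    (if n + Md ≤ b + s + d ∧ n + Mc ≤ b + s + c ∧ G + H < T then
      ((T - G - H : ℤ) : ℝ) * q ^ (-T) else 0)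
  else 0

noncomputable def Fv (q : ℝ) (b n mc md Mc Md Je s c d e : ℤ) : ℝ :=
  F1 q b n mc md Mc Md Je s c d e + (1 - q⁻¹) * F2 q b n mc md Mc Md Je s c d e

end Pool.Agent.TH32
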