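import Pool.Agent.TH32.H.Asm2
import Pool.Agent.TH902.TZH_STR
import Pool.Agent.H260TZ.Uniq
import Pool.Agent.TH32.HF.f00A
import Pool.Agent.TH32.HF.f00B
import Pool.Agent.TH32.HF.f01A
import Pool.Agent.TH32.HF.f01B
import Pool.Agent.TH32.HF.f02A
import Pool.Agent.TH32.HF.f02B
import Pool.Agent.TH32.HF.f03A
import Pool.Agent.TH32.HF.f03B
import Pool.Agent.TH32.HF.f04A
import Pool.Agent.TH32.HF.f04B
import Pool.Agent.TH32.HF.f05A
import Pool.Agent.TH32.HF.f05B
import Pool.Agent.TH32.HF.f06A
import Pool.Agent.TH32.HF.f06B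
import Pool.Agent.TH32.HF.f07A
import Pool.Agent.TH32.HF.f07B
import Pool.Agent.TH32.HF.f08A
import Pool.Agent.TH32.HF.f08B
import Pool.Agent.TH32.HF.f09A
import Pool.Agent.TH32.HF.f09B
import Pool.Agent.TH32.HF.f10A
import Pool.Agent.TH32.HF.f10B
import Pool.Agent.TH32.HF.f11A
import Pool.Agent.TH32.HF.f11B
import Pool.Agent.TH32.HF.f12A
import Pool.Agent.TH32.HF.f12B
import Pool.Agent.TH32.HF.f13A
import Pool.Agent.TH32.HF.f13B
import Pool.Agent.TH32.HF.f14A
import Pool.Agent.TH32.HF.f14B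
import Pool.Agent.TH32.HF.f15A
import Pool.Agent.TH32.HF.f15B
import Pool.Agent.TH32.HF.f16A
import Pool.Agent.TH32.HF.f16B
import Pool.Agent.TH32.HF.f17A
import Pool.Agent.TH32.HF.f17B
import Pool.Agent.TH32.HF.f18A
import Pool.Agent.TH32.HF.f18B
import Pool.Agent.TH32.HF.f19A
import Pool.Agent.TH32.HF.f19B
import Pool.Agent.TH32.HF.f20A
import Pool.Agent.TH32.HF.f20B
import Pool.Agent.TH32.HF.f21A
import Pool.Agent.TH32.HF.f21B
import Pool.Agent.TH32.HF.f22A
import Pool.Agent.TH32.HF.f22B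
import Pool.Agent.TH32.HF.f23A
import Pool.Agent.TH32.HF.f23B
import Pool.Agent.TH32.HF.f24A
import Pool.Agent.TH32.HF.f24B
import Pool.Agent.TH32.HF.f25A
import Pool.Agent.TH32.HF.f25B
import Pool.Agent.TH32.HF.f26A
import Pool.Agent.TH32.HF.f26B
import Pool.Agent.TH32.HF.f27A
import Pool.Agent.TH32.HF.f27B
import Pool.Agent.TH32.HF.f28A
import Pool.Agent.TH32.HF.f28B
import Pool.Agent.TH32.HF.f29A
import Pool.Agent.TH32.HF.f29B
import Pool.Agent.TH32.HF.f30A
import Pool.Agent.TH32.HF.f30B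

set_option autoImplicit false


namespace Pool.Agent.TH32

open Polynomial Pool.Agent.H260TZ

/-- the polar vectors -/
def pvs : List (List ℤ × List ℤ) :=
  [([0], []),
   ([0], []),
   ([0], []),
   ([0], []),
   ([-6453615168000, -681080400000, 0], [4735022292000, 170270100000, 0]),
   ([2270268000000, 681080400000, 0], [-1078377300000, -170270100000, 0]),
   ([2270268000000, 681080400000, 0], [-1078377300000, -170270100000, 0]),
   ([2270268000000, 681080400000, 0], [-1078377300000, -170270100000, 0]),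
   ([-2421619200000, -454053600000], [548648100000, 113513400000]),
   ([605404800000, 454053600000], [-94594500000, -113513400000]),
   ([605404800000, 454053600000], [-94594500000, -113513400000]),
   ([605404800000, 454053600000], [-94594500000, -113513400000]),
   ([-160432272000], [-245188944000]),
   ([3417510096000], [-2918051136000]),
   ([3199564368000], [-2918051136000]),
   ([6910695792000, 681080400000, 0], [-3546915372000, -170270100000, 0]),
   ([-3632428800000, -681080400000, 0], [1418917500000, 170270100000, 0]),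
   ([-3632428800000, -681080400000, 0], [1418917500000, 170270100000, 0]),
   ([-3632428800000, -681080400000, 0], [1418917500000, 170270100000, 0]),
   ([0], [0]),
   ([908107200000], [-227026800000]),
   ([908107200000], [-227026800000]),
   ([2421619200000, 454053600000], [-548648100000, -113513400000]),
   ([-1513512000000, -454053600000], [321621300000, 113513400000]),
   ([-1513512000000, -454053600000], [321621300000, 113513400000]),
   ([-1513512000000, -454053600000], [321621300000, 113513400000]),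
   ([0], [0]),
   ([-908107200000], [227026800000]),
   ([-908107200000], [227026800000]),
   ([-908107200000], [227026800000]),
   ([-908107200000], [227026800000])]

theorem pvs_sum : ∀ a ∈ polSum blks pvs, a = 0 := by
  decide +kernel

theorem good_all : List.Forall₂ (fun (B : Blk) (p : List ℤ × List ℤ) =>
    GoodS B.K B.u ((10897286400000 : ℕ) : ℤ) [] B.A p.1 ∧
      GoodS B.K (B.u + 1) ((10897286400000 : ℕ) : ℤ) [] B.B p.2) blks pvs := by
  refine List.Forall₂.cons ⟨fgood f00A, fgood f00B⟩ ?_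
  refine List.Forall₂.cons ⟨fgood f01A, fgood f01B⟩ ?_
  refine List.Forall₂.cons ⟨fgood f02A, fgood f02B⟩ ?_
  refine List.Forall₂.cons ⟨fgood f03A, fgood f03B⟩ ?_
  refine List.Forall₂.cons ⟨fgood f04A, fgood f04B⟩ ?_
  refine List.Forall₂.cons ⟨fgood f05A, fgood f05B⟩ ?_
  refine List.Forall₂.cons ⟨fgood f06A, fgood f06B⟩ ?_
  refine List.Forall₂.cons ⟨fgood f07A, fgood f07B⟩ ?_
  refine List.Forall₂.cons ⟨fgood f08A, fgood f08B⟩ ?_
  refine List.Forall₂.cons ⟨fgood f09A, fgood f09B⟩ ?_
  refine List.Forall₂.cons ⟨fgood f10A, fgood f10B⟩ ?_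
  refine List.Forall₂.cons ⟨fgood f11A, fgood f11B⟩ ?_
  refine List.Forall₂.cons ⟨fgood f12A, fgood f12B⟩ ?_
  refine List.Forall₂.cons ⟨fgood f13A, fgood f13B⟩ ?_
  refine List.Forall₂.cons ⟨fgood f14A, fgood f14B⟩ ?_
  refine List.Forall₂.cons ⟨fgood f15A, fgood f15B⟩ ?_
  refine List.Forall₂.cons ⟨fgood f16A, fgood f16B⟩ ?_
  refine List.Forall₂.cons ⟨fgood f17A, fgood f17B⟩ ?_
  refine List.Forall₂.cons ⟨fgood f18A, fgood f18B⟩ ?_
  refine List.Forall₂.cons ⟨fgood f19A, fgood f19B⟩ ?_
  refine List.Forall₂.cons ⟨fgood f20A, fgood f20B⟩ ?_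
  refine List.Forall₂.cons ⟨fgood f21A, fgood f21B⟩ ?_
  refine List.Forall₂.cons ⟨fgood f22A, fgood f22B⟩ ?_
  refine List.Forall₂.cons ⟨fgood f23A, fgood f23B⟩ ?_
  refine List.Forall₂.cons ⟨fgood f24A, fgood f24B⟩ ?_
  refine List.Forall₂.cons ⟨fgood f25A, fgood f25B⟩ ?_
  refine List.Forall₂.cons ⟨fgood f26A, fgood f26B⟩ ?_
  refine List.Forall₂.cons ⟨fgood f27A, fgood f27B⟩ ?_
  refine List.Forall₂.cons ⟨fgood f28A, fgood f28B⟩ ?_
  refine List.Forall₂.cons ⟨fgood f29A, fgood f29B⟩ ?_
  refine List.Forall₂.cons ⟨fgood f30A, fgood f30B⟩ ?_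
  exact List.Forall₂.nil

/-- the strong form of the limit theorem for sums of polyhedral blocks -/
theorem asm_topC : TopCStmt :=
  TH902.TZH.topCAsm TH558.TZH.idxPow TH359.TZH.rat (TH359.TZH.pbLim TH359.TZH.tmLim)

/-- the topological subalgebra zeta function of `cH` exists and has no pole at zero -/
theorem no_pole : ∃ N D : ℚ[X], IsTopZetaC cH N D ∧ D.eval 0 ≠ 0 :=
  finC asm_topC _ pvs good_all pvs_sum

end Pool.Agent.TH32
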