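import Pool.Agent.TH32.H.Blocks

set_option autoImplicit false

/-! Rational functions, limits for `q → 1`, and the polar part at `s = 0`. -/

namespace Pool.Agent.TH32

open Polynomial Filter Topology Pool.Agent.H260TZ

/-- the limit of `(1 - 1/q)^r` times the term at `x = q^(-s)`, `r` the number of factors -/
def Tm.lim (s : ℚ) (t : Tm) : ℚ :=
  (t.c : ℚ) * (t.ds.map (fun d => ((d.2 : ℚ) * s - d.1)⁻¹)).prod

/-- a list of terms with its prefactor -/
structure PB where
  m : ℕ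
  u : ℕ
  u2 : ℕ
  u3 : ℕ
  L : List Tm

/-- all factors are admissible and there are at most `4 + u` of them -/
def PB.ok (p : PB) : Prop := okL p.L ∧ ∀ t ∈ p.L, t.ds.length ≤ 4 + p.u

noncomputable def PB.val (q x : ℝ) (p : PB) : ℝ := kap q p.m p.u p.u2 p.u3 * sv q x p.L

/-- the terms that survive in the limit -/
def top (u : ℕ) (L : List Tm) : List Tm := L.filter (fun t => t.ds.length == 4 + u)

def PB.lim (s : ℚ) (p : PB) : ℚ :=
  (p.m : ℚ) * (-1) ^ p.u2 * (-2) ^ p.u3 * ((top p.u p.L).map (Tm.lim s)).sum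

/-- `s` is not a pole of a factor of `t` -/
def Tm.reg (s : ℚ) (t : Tm) : Prop := ∀ d ∈ t.ds, (d.2 : ℚ) * s - d.1 ≠ 0

/-- rational functions in `x` -/
def RatStmt : Prop :=
  ∀ (q : ℕ) (s : ℤ) (L : List Tm), 2 ≤ q → okL L → (∀ t ∈ L, t.reg s) →
    ∃ P Q : ℚ[X], Q.eval ((q : ℚ) ^ (-s)) ≠ 0 ∧
      P.eval ((q : ℚ) ^ (-s)) / Q.eval ((q : ℚ) ^ (-s)) =
        (L.map (fun t => t.val (q : ℚ) ((q : ℚ) ^ (-s)))).sum ∧
      ∀ x : ℝ, 0 < x → x ≤ ((q : ℝ)⁻¹) ^ 5 → aeval x Q ≠ 0 ∧ aeval x P / aeval x Q = sv q x L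

/-- limits of terms -/
def TmLimStmt : Prop :=
  ∀ (F : Type) [NontriviallyNormedField F] [CharZero F] (s : ℤ) (t : Tm), t.reg s →
    Tendsto (fun q : F => (1 - q⁻¹) ^ t.ds.length * t.val q (q ^ (-s))) (𝓝[≠] 1)
      (𝓝 ((t.lim s : ℚ) : F))

def PBLimStmt : Prop :=
  ∀ (F : Type) [NontriviallyNormedField F] [CharZero F] (s : ℤ) (L : List PB),
    (∀ p ∈ L, p.ok ∧ ∀ t ∈ p.L, t.reg s) →
    Tendsto (fun q : F => (1 - q⁻¹) ^ 4 * (L.map (fun p =>
      (p.m : F) * (1 - q⁻¹) ^ p.u * (1 - 2 * q⁻¹) ^ p.u2 * (1 - 3 * q⁻¹) ^ p.u3 *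
        (p.L.map (fun t => t.val q (q ^ (-s)))).sum)).sum) (𝓝[≠] 1)
      (𝓝 (((L.map (PB.lim s)).sum : ℚ) : F))

/-- the local zeta function is given by the list of blocks -/
def Loc (L : List PB) : Prop :=
  ∀ (R : Type) [CommRing R] [IsDomain R] (D : DV R) (x : ℝ), 3 ≤ D.q → 0 < x →
    x ≤ ((D.q : ℝ)⁻¹) ^ 5 →
    HasSum (fun U : FinSub cH R => x ^ Nat.log D.q (Nat.card ((Fin 4 → R) ⧸ U.1)))
      ((L.map (fun p => p.val D.q x)).sum)

def TopStmt : Prop :=
  ∀ L : List PB, (∀ p ∈ L, p.ok) → Loc L →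
    ∀ (N Dn : ℚ[X]) (H : Set ℤ), Dn ≠ 0 → H.Finite →
      (∀ s : ℤ, s ∉ H → Dn.eval (s : ℚ) ≠ 0 ∧
        (L.map (PB.lim s)).sum = N.eval (s : ℚ) / Dn.eval (s : ℚ)) →
      IsTopZeta cH N Dn

def PBLimAsm : Prop := TmLimStmt → PBLimStmt

def TopAsm : Prop := IdxPowStmt → RatStmt → PBLimStmt → TopStmt

/-! ### The polar part -/

/-- divide a truncated power series (list of scaled coefficients of `1, s, s^2, …`) by
`b s - a`, `a ≠ 0`; `r` is the previous coefficient; all divisions must be exact -/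
def dvA (a b : ℤ) : ℤ → List ℤ → Option (List ℤ)
  | _, [] => some []
  | r, p :: ps =>
    let y := b * r - p
    let z := y / a
    if z * a = y then
      match dvA a b z ps with
      | none => none
      | some l => some (z :: l)
    else none

/-- divide by `b` -/
def dvB (b : ℤ) : List ℤ → Option (List ℤ)
  | [] => some []
  | p :: ps =>
    let z := p / b
    if z * b = p then
      match dvB b ps with
      | none => none
      | some l => some (z :: l)
    else none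

/-- the scaled coefficients of `s^(-z), …, s^(-1)`, `z` the number of factors with `a = 0` -/
def dvs : List (ℤ × ℤ) → List ℤ → Option (List ℤ)
  | [], l => some l
  | (a, b) :: ds, l =>
    match (if a = 0 then dvB b l else dvA a b 0 l) with
    | none => none
    | some l' => dvs ds l'

def nz (ds : List (ℤ × ℤ)) : ℕ := (ds.filter (fun d => decide (d.1 = 0))).length

/-- polar vector of a term: scaled coefficients of `s^(-1), s^(-2), …` -/
def polT (Λ : ℤ) (t : Tm) : Option (List ℤ) :=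
  match nz t.ds with
  | 0 => some []
  | z + 1 => match dvs t.ds ((Λ * t.c) :: List.replicate z 0) with
    | none => none
    | some l => some l.reverse

def polL (Λ : ℤ) : List Tm → Option (List ℤ)
  | [] => some []
  | t :: L => match polT Λ t with
    | none => none
    | some l => match polL Λ L with
      | none => none
      | some l' => some (addF l l')

/-- value of a polar vector -/
def pval (Λ : ℤ) (s : ℚ) (l : List ℤ) : ℚ :=
  ∑ j ∈ Finset.range l.length, (l.getD j 0 : ℚ) / (Λ * s ^ (j + 1))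

def PolStmt : Prop :=
  ∀ (Λ : ℤ) (L : List Tm) (l : List ℤ), Λ ≠ 0 → (∀ t ∈ L, t.ds.all okd = true) →
    polL Λ L = some l →
    ∃ N D : ℚ[X], D.eval 0 ≠ 0 ∧ ∀ s : ℚ, s ≠ 0 → (∀ t ∈ L, t.reg s) →
      D.eval s ≠ 0 ∧ (L.map (Tm.lim s)).sum = pval Λ s l + N.eval s / D.eval s

/-- the check of one decision tree -/
def chk (K F2 n u : ℕ) (Λ : ℤ) (cert : List ℕ) (F : Fac) : Option (List ℤ) :=
  match run1 K F2 n cert [] F with
  | none => none
  | some (L, _) =>
    if L.all (fun t => decide (t.ds.length ≤ 4 + u)) then polL Λ (top u L) else none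

/-- what a successful check gives -/
def Good (K u : ℕ) (Λ : ℤ) (F : Fac) (l : List ℤ) : Prop :=
  ∃ L : List Tm, okL L ∧ (∀ t ∈ L, t.ds.length ≤ 4 + u) ∧ polL Λ (top u L) = some l ∧
    ∀ q x : ℝ, 1 < q → 0 < x → x ≤ q⁻¹ ^ 5 → 0 ≤ sv q x L ∧
      (∑' v : Fin K → ℕ, ENNReal.ofReal (F.val q x v)) = ENNReal.ofReal (sv q x L)

/-- scaled sum of the polar vectors over the blocks; `pr` is the list of the polar vectors of
`A` and `B` -/
def polSum : List Blk → List (List ℤ × List ℤ) → List ℤ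
  | B :: L, p :: P =>
    addF ((addF p.1 p.2).map (fun a => (B.m : ℤ) * (-1) ^ B.u2 * (-2) ^ B.u3 * a)) (polSum L P)
  | _, _ => []

def FinalStmt : Prop :=
  ∀ (Λ : ℤ) (P : List (List ℤ × List ℤ)), Λ ≠ 0 →
    List.Forall₂ (fun (B : Blk) (p : List ℤ × List ℤ) =>
      Good B.K B.u Λ B.A p.1 ∧ Good B.K (B.u + 1) Λ B.B p.2) blks P →
    (∀ a ∈ polSum blks P, a = 0) →
    ∃ N D : ℚ[X], IsTopZeta cH N D ∧ D.eval 0 ≠ 0

def FinalAsm : Prop := S2Stmt → S3Stmt → TopStmt → PolStmt → FinalStmt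

def ChkStmt : Prop := SoundStmt → ∀ (K F2 n u : ℕ) (Λ : ℤ) (cert : List ℕ) (F : Fac) (l : List ℤ),
  chk K F2 n u Λ cert F = some l → Good K u Λ F l

/-- decode a certificate in base `128` -/
def dec : ℕ → ℕ → List ℕ
  | 0, _ => []
  | n + 1, c => if c = 0 then [] else (c % 128) :: dec n (c / 128)

end Pool.Agent.TH32
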