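import Pool.Agent.TH32.H.Def

set_option autoImplicit false

namespace Pool.Agent.TH32

open Pool.Agent.H260TZ

/-! ### Lattices of `R⁴` and their parametrisation -/

/-- exchange of the coordinates `c` and `d` -/
def swM (R : Type) [CommRing R] : MR R ≃ₗ[R] MR R where
  toFun x := ((x.1.2, x.1.1), x.2)
  map_add' _ _ := rfl
  map_smul' _ _ := rfl
  invFun x := ((x.1.2, x.1.1), x.2)
  left_inv _ := rfl
  right_inv _ := rfl

def S1AStmt : Prop :=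
  ∀ (R : Type) [CommRing R] [IsDomain R] (D : DV R) (x : ℝ), 0 < x →
    (∑' U : FinSub cH R, ENNReal.ofReal (x ^ Nat.log D.q (Nat.card ((Fin 4 → R) ⧸ U.1)))) =
      ∑' b : ℕ, ∑' N : {N : Submodule R (MR R) // idx N ≠ 0},
        ENNReal.ofReal (x ^ (b + Nat.log D.q (idx N.1))) * (cntC D b N.1 : ENNReal)

/-- each submodule of finite index of `R⁴` has index a power of `q` -/
def IdxPowStmt : Prop :=
  ∀ (R : Type) [CommRing R] [IsDomain R] (D : DV R) (N : Submodule R (Fin 4 → R)),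
    Finite ((Fin 4 → R) ⧸ N) → ∃ w : ℕ, Nat.card ((Fin 4 → R) ⧸ N) = D.q ^ w

def S1BStmt : Prop :=
  ∀ (R : Type) [CommRing R] [IsDomain R] (D : DV R) (F : Submodule R (MR R) → ENNReal),
    (∑' N : {N : Submodule R (MR R) // idx N ≠ 0}, F N.1) =
      ∑' m : ℕ, ∑' n : ℕ, ∑' k : ℕ,
        ((∑ z : D.Q k, ∑ τ₁ : D.Q n, ∑ τ₂ : D.Q n,
            F (NN D m k (D.lift z) n (D.lift τ₁) (D.lift τ₂))) +
         ∑ z : D.Q k, ∑ τ₁ : D.Q n, ∑ τ₂ : D.Q n,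
            F ((NN D m (k + 1) (D.t * D.lift z) n (D.lift τ₁) (D.lift τ₂)).map
              (swM R).toLinearMap))

def S1CStmt : Prop :=
  (∀ (R : Type) [CommRing R] [IsDomain R] (D : DV R) (b : ℕ) (N : Submodule R (MR R)),
    cntC D b (N.map (swM R).toLinearMap) = cntC D b N) ∧
  (∀ (R : Type) [CommRing R] [IsDomain R] (D : DV R) (N : Submodule R (MR R)),
    idx (N.map (swM R).toLinearMap) = idx N) ∧
  (∀ (R : Type) [CommRing R] [IsDomain R] (D : DV R) (m k : ℕ) (z : R) (n : ℕ) (τ₁ τ₂ : R),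
    idx (NN D m k z n τ₁ τ₂) = D.q ^ (2 * m + k + n))

/-! ### The local count -/

def LP1Stmt : Prop :=
  ∀ (R : Type) [CommRing R] [IsDomain R] (D : DV R) (m k : ℕ) (z : R) (n : ℕ) (τ₁ τ₂ : R)
    (l : ℕ) (z₁ : R), l ≤ k → z = D.t ^ l * z₁ → (l < k → IsUnit z₁) →
    (C1 (NN D m k z n τ₁ τ₂) ↔ n ≤ 2 * m + l)

def LP2Stmt : Prop :=
  ∀ (R : Type) [CommRing R] [IsDomain R] (D : DV R) (b m k : ℕ) (z : R) (n : ℕ) (τ₁ τ₂ : R)
    (l : ℕ) (z₁ : R), l ≤ k → z = D.t ^ l * z₁ → (l < k → IsUnit z₁) →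
    ∀ (s c d : ℕ), s = min (D.lev n τ₁) (D.lev n τ₂) → c = D.lev n τ₂ →
      d = D.lev n (D.t ^ (k - l) * τ₁ + z₁ * τ₂) →
    ((∃ w, C2 D b (NN D m k z n τ₁ τ₂) w) ↔
      (m + k ≤ b + s ∧ n + (m + k) ≤ b + c + d ∧ min (m + l) n + (m + k) ≤ b + s + c)) ∧
    (∀ w₀, C2 D b (NN D m k z n τ₁ τ₂) w₀ →
      (∀ w, C2 D b (NN D m k z n τ₁ τ₂) w ↔ D.t ^ (n - (m + l)) ∣ w - w₀) ∧
      D.lev (n - (m + l)) w₀ = if n + (m + k) ≤ b + s + c then n - (m + l)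
        else b + s + c - (m + k) - (m + l))

def LP3Stmt : Prop :=
  ∀ (R : Type) [CommRing R] [IsDomain R] (D : DV R) (b m k : ℕ) (z : R) (n : ℕ) (τ₁ τ₂ : R)
    (l : ℕ) (z₁ : R), l ≤ k → z = D.t ^ l * z₁ → (l < k → IsUnit z₁) →
    ∀ (s c d : ℕ), s = min (D.lev n τ₁) (D.lev n τ₂) → c = D.lev n τ₂ →
      d = D.lev n (D.t ^ (k - l) * τ₁ + z₁ * τ₂) →
    ((∃ w, C3 D b (NN D m k z n τ₁ τ₂) w) ↔
      (m + k - l ≤ b + s ∧ n + (m + k - l) ≤ b + c + d ∧ min m n + (m + k - l) ≤ b + s + d)) ∧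
    (∀ w₀, C3 D b (NN D m k z n τ₁ τ₂) w₀ →
      (∀ w, C3 D b (NN D m k z n τ₁ τ₂) w ↔ D.t ^ (n - m) ∣ w - w₀) ∧
      D.lev (n - m) w₀ = if n + (m + k - l) ≤ b + s + d then n - m
        else b + s + d - (m + k - l) - m)

def LP4Stmt : Prop :=
  ∀ (R : Type) [CommRing R] [IsDomain R] (D : DV R) (b m k : ℕ) (z : R) (n : ℕ) (τ₁ τ₂ : R)
    (l' : ℕ) (z₂ : R), l' ≤ k → 1 + z = D.t ^ l' * z₂ → (l' < k → IsUnit z₂) →
    ∀ (e T L : ℕ), e = D.lev n (D.t ^ (k - l') * τ₁ + z₂ * τ₂) →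
      T = min n (e + (b - (m + k - l'))) → m + k + n ≤ L →
    ∀ wc wd : R, Nat.card {wa : D.Q L // C4 D b (NN D m k z n τ₁ τ₂) wc wd (D.lift wa)} =
      (open Classical in if D.t ^ T ∣ wc * wd then D.q ^ (L - ((m + k - l') - b) - (n - T)) else 0)

/-- the density of pairs -/
noncomputable def pairF (q : ℝ) (G H T g h : ℕ) : ℝ :=
  if g = G then
    if h = H then
      if T ≤ G + H then q ^ (-((G : ℤ) + H))
      else (((T : ℝ) - G - H) * (1 - q⁻¹) + 1) * q ^ (-(T : ℤ))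
    else q ^ (-((max G (T - h) : ℕ) : ℤ) - H)
  else
    if h = H then q ^ (-((max H (T - g) : ℕ) : ℤ) - G)
    else if T ≤ g + h then q ^ (-((G : ℤ) + H)) else 0

def LP5Stmt : Prop :=
  ∀ (R : Type) [CommRing R] [IsDomain R] (D : DV R) (G H T L : ℕ), G ≤ L → H ≤ L → T ≤ L →
    ∀ u v : R, (Nat.card {p : D.Q L × D.Q L // D.t ^ G ∣ D.lift p.1 - u ∧
        D.t ^ H ∣ D.lift p.2 - v ∧ D.t ^ T ∣ D.lift p.1 * D.lift p.2} : ℝ) =
      (D.q : ℝ) ^ (2 * L) * pairF D.q G H T (D.lev G u) (D.lev H v)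

/-- the count of `w` modulo `N` as a count modulo `t^L` -/
def LP6Stmt : Prop :=
  ∀ (R : Type) [CommRing R] [IsDomain R] (D : DV R) (b m k : ℕ) (z : R) (n : ℕ) (τ₁ τ₂ : R)
    (L : ℕ), m + k + n ≤ L →
    cntC D b (NN D m k z n τ₁ τ₂) * D.q ^ (3 * L) =
      D.q ^ (2 * m + k + n) * Nat.card {p : D.Q L × D.Q L × D.Q L //
        Clos D b (NN D m k z n τ₁ τ₂) ((D.lift p.1, D.lift p.2.1), D.lift p.2.2)}

def LPStmt : Prop :=
  ∀ (R : Type) [CommRing R] [IsDomain R] (D : DV R) (b m k : ℕ) (z : R) (n : ℕ) (τ₁ τ₂ : R)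
    (l l' : ℕ) (z₁ z₂ : R), l ≤ k → l' ≤ k → z = D.t ^ l * z₁ → 1 + z = D.t ^ l' * z₂ →
    (l < k → IsUnit z₁) → (l' < k → IsUnit z₂) →
    (cntC D b (NN D m k z n τ₁ τ₂) : ℝ) = (D.q : ℝ) ^ (n + 2 * m + k) *
      Fv D.q b n (m + l) m (m + k) (m + k - l) (m + k - l')
        (min (D.lev n τ₁) (D.lev n τ₂) : ℕ) (D.lev n τ₂)
        (D.lev n (D.t ^ (k - l) * τ₁ + z₁ * τ₂)) (D.lev n (D.t ^ (k - l') * τ₁ + z₂ * τ₂))

def LPAsmStmt : Prop :=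
  LP1Stmt → LP2Stmt → LP3Stmt → LP4Stmt → LP5Stmt → LP6Stmt → LPStmt

/-! ### Distribution of the valuations -/

/-- the measure of the elements of valuation `t` -/
noncomputable def mu (q : ℕ) (t : ℕ) : ENNReal :=
  ENNReal.ofReal ((1 - (q : ℝ)⁻¹) * ((q : ℝ)⁻¹) ^ t)

/-- `(1 - j / q) / q ^ t` -/
noncomputable def mj (j : ℕ) (q : ℕ) (t : ℕ) : ENNReal :=
  ENNReal.ofReal ((1 - (j : ℝ) * (q : ℝ)⁻¹) * ((q : ℝ)⁻¹) ^ t)

/-- cut the arguments at `n` -/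
def cap (n : ℕ) (G : ℕ → ℕ → ℕ → ℕ → ENNReal) : ℕ → ℕ → ℕ → ℕ → ENNReal :=
  fun s Y X Z => G (min s n) (min Y n) (min X n) (min Z n)

noncomputable def E0 (q g : ℕ) (G : ℕ → ℕ → ℕ → ℕ → ENNReal) : ENNReal :=
  ∑' t : ℕ, mu q t * ((∑' y : ℕ, if y < g + t then mu q y * G (min t y) y t y else 0) +
    mj 2 q (g + t) * G t (g + t) t (g + t) +
    (∑' i : ℕ, mu q (g + t + i + 1) * G t (g + t + i + 1) t (g + t)) +
    ∑' i : ℕ, mu q (g + t + i + 1) * G t (g + t) t (g + t + i + 1))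

noncomputable def E1 (q g h : ℕ) (G : ℕ → ℕ → ℕ → ℕ → ENNReal) : ENNReal :=
  ∑' t : ℕ, mu q t * ((∑' y : ℕ, if y < h + t then mu q y * G (min t y) y y y else 0) +
    mj 2 q (h + t) * G t (h + t) (h + t) (h + t) +
    (∑' i : ℕ, mu q (h + t + i + 1) * G t (h + t) (h + t + i + 1) (h + t)) +
    (∑' i : ℕ, if i + 1 < g then
      mu q (h + t + i + 1) * G t (h + t + i + 1) (h + t) (h + t + i + 1) else 0) +
    mj 2 q (g + h + t) * G t (g + h + t) (h + t) (g + h + t) +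
    (∑' i : ℕ, mu q (g + h + t + i + 1) * G t (g + h + t + i + 1) (h + t) (g + h + t)) +
    ∑' i : ℕ, mu q (g + h + t + i + 1) * G t (g + h + t) (h + t) (g + h + t + i + 1))

noncomputable def Ec (q h : ℕ) (G : ℕ → ℕ → ℕ → ℕ → ENNReal) : ENNReal :=
  ∑' t : ℕ, mu q t * ((∑' y : ℕ, if y < h + t then mu q y * G (min t y) y y y else 0) +
    mj 3 q (h + t) * G t (h + t) (h + t) (h + t) +
    (∑' i : ℕ, mu q (h + t + i + 1) * G t (h + t + i + 1) (h + t) (h + t)) +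
    (∑' i : ℕ, mu q (h + t + i + 1) * G t (h + t) (h + t + i + 1) (h + t)) +
    ∑' i : ℕ, mu q (h + t + i + 1) * G t (h + t) (h + t) (h + t + i + 1))

/-- the sum over `τ₁, τ₂` -/
noncomputable def TS {R : Type} [CommRing R] [IsDomain R] (D : DV R) (n : ℕ) (c₁ α c₂ β : R)
    (G : ℕ → ℕ → ℕ → ℕ → ENNReal) : ENNReal :=
  ∑ τ₁ : D.Q n, ∑ τ₂ : D.Q n, G (min (D.lev n (D.lift τ₁)) (D.lev n (D.lift τ₂)))
    (D.lev n (D.lift τ₂)) (D.lev n (c₁ * D.lift τ₁ + α * D.lift τ₂))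
    (D.lev n (c₂ * D.lift τ₁ + β * D.lift τ₂))

def D0Stmt : Prop :=
  ∀ (R : Type) [CommRing R] [IsDomain R] (D : DV R) (n g : ℕ) (α β : R),
    IsUnit (β - D.t ^ g * α) → ∀ G : ℕ → ℕ → ℕ → ℕ → ENNReal,
    TS D n 1 α (D.t ^ g) β G = (D.q : ENNReal) ^ (2 * n) * E0 D.q g (cap n G)

def D1Stmt : Prop :=
  ∀ (R : Type) [CommRing R] [IsDomain R] (D : DV R) (n g h : ℕ) (α β : R), 1 ≤ g → 1 ≤ h →
    IsUnit α → IsUnit β → ∀ G : ℕ → ℕ → ℕ → ℕ → ENNReal,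
    TS D n (D.t ^ h) α (D.t ^ (g + h)) β G = (D.q : ENNReal) ^ (2 * n) * E1 D.q g h (cap n G)

def DcStmt : Prop :=
  ∀ (R : Type) [CommRing R] [IsDomain R] (D : DV R) (n h : ℕ) (α β : R), 1 ≤ h → 3 ≤ D.q →
    IsUnit α → IsUnit β → IsUnit (β - α) → ∀ G : ℕ → ℕ → ℕ → ℕ → ENNReal,
    TS D n (D.t ^ h) α (D.t ^ h) β G = (D.q : ENNReal) ^ (2 * n) * Ec D.q h (cap n G)

/-- the number of classes -/
noncomputable def cz (q : ℕ) (h : ℕ) : ENNReal :=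
  if h = 0 then 1 else ENNReal.ofReal ((1 - (q : ℝ)⁻¹) * (q : ℝ) ^ h)

def CZStmt : Prop :=
  (∀ (R : Type) [CommRing R] [IsDomain R] (D : DV R) (k : ℕ) (f : ℕ → ℕ → ENNReal),
    (∑ z : D.Q k, f (D.lev k (D.lift z)) (D.lev k (1 + D.lift z))) =
      if k = 0 then f 0 0 else
        (∑ g ∈ Finset.Icc 1 k, cz D.q (k - g) * (f g 0 + f 0 g)) +
          ENNReal.ofReal ((1 - 2 * (D.q : ℝ)⁻¹) * (D.q : ℝ) ^ k) * f 0 0) ∧
  (∀ (R : Type) [CommRing R] [IsDomain R] (D : DV R) (k : ℕ) (f : ℕ → ℕ → ENNReal),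
    (∑ z : D.Q k, f (D.lev (k + 1) (D.t * D.lift z)) (D.lev (k + 1) (1 + D.t * D.lift z))) =
        ∑ g ∈ Finset.Icc 1 (k + 1), cz D.q (k + 1 - g) * f g 0)

/-- the local zeta function as a sum over valuations -/
noncomputable def ZS (q : ℕ) (x : ℝ) : ENNReal :=
  ∑' b : ℕ, ∑' m : ℕ, ∑' n : ℕ, ENNReal.ofReal (x ^ (b + n + 2 * m) * (q : ℝ) ^ (3 * n + 2 * m)) *
    (E0 q 0 (fun s Y X Z => ENNReal.ofReal (Fv q b n m m m m m s Y X Z)) +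
     (∑' g' : ℕ, ENNReal.ofReal ((x * q) ^ (g' + 1)) *
       (2 * E0 q (g' + 1) (fun s Y X Z => ENNReal.ofReal
          (Fv q b n (m + g' + 1) m (m + g' + 1) m (m + g' + 1) s Y X Z)) +
        E0 q (g' + 1) (fun s Y X Z => ENNReal.ofReal
          (Fv q b n m m (m + g' + 1) (m + g' + 1) m s Y Z X)))) +
     (∑' g' : ℕ, ∑' h' : ℕ, ENNReal.ofReal ((1 - (q : ℝ)⁻¹) * (x * q) ^ (g' + h' + 2) *
          (q : ℝ) ^ (h' + 1)) *
       (2 * E1 q (g' + 1) (h' + 1) (fun s Y X Z => ENNReal.ofReal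
          (Fv q b n (m + g' + 1) m (m + g' + h' + 2) (m + h' + 1) (m + g' + h' + 2) s Y X Z)) +
        E1 q (g' + 1) (h' + 1) (fun s Y X Z => ENNReal.ofReal
          (Fv q b n m m (m + g' + h' + 2) (m + g' + h' + 2) (m + h' + 1) s Y Z X)))) +
     ∑' h' : ℕ, ENNReal.ofReal ((1 - 2 * (q : ℝ)⁻¹) * (x * q) ^ (h' + 1) * (q : ℝ) ^ (h' + 1)) *
       Ec q (h' + 1) (fun s Y X Z => ENNReal.ofReal
          (Fv q b n m m (m + h' + 1) (m + h' + 1) (m + h' + 1) s Y X Z)))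

def S2Stmt : Prop :=
  ∀ (R : Type) [CommRing R] [IsDomain R] (D : DV R) (x : ℝ), 0 < x → 3 ≤ D.q →
    (∑' U : FinSub cH R, ENNReal.ofReal (x ^ Nat.log D.q (Nat.card ((Fin 4 → R) ⧸ U.1)))) =
      ZS D.q x

def S2AsmStmt : Prop :=
  S1AStmt → S1BStmt → S1CStmt → LPStmt → D0Stmt → D1Stmt → DcStmt → CZStmt → S2Stmt

end Pool.Agent.TH32
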